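import Mathlib
import Pool.Agent.H60.PAryA

namespace Pool.Agent.Results.MP_96deef_nt.Exists

open Pool.Agent.H60.PAry

/-- For `m = 3`, writing `c_3(n) = S_{2,3}(n) = 2^a w` with `w` odd, we have `w ≠ 1` and
`ν_2(w - 1) ∈ {1, 2}` for every `n ≥ 1`. -/
theorem result : ∀ n : ℕ, 1 ≤ n → ∀ a w : ℕ, S 2 3 ((2 - 1) * 3) n = 2 ^ a * w → Odd w →
    w ≠ 1 ∧ (padicValNat 2 (w - 1) = 1 ∨ padicValNat 2 (w - 1) = 2) := by
  intro n hn a w h hw
  have h1 := mod3 n hn
  rw [show (2 - 1) * 3 = 3 from rfl] at h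
  rw [h] at h1
  obtain ⟨v, rfl⟩ := hw
  have key : v % 4 ≠ 0 := by
    intro hv
    simp only [List.mem_cons, List.not_mem_nil, or_false] at h1
    rcases a with _ | _ | _ | _ | a
    · omega
    · omega
    · omega
    · omega
    · have : 2 ^ (a + 1 + 1 + 1 + 1) * (2 * v + 1) = 16 * (2 ^ a * (2 * v + 1)) := by ring
      omega
  refine ⟨by omega, ?_⟩
  have hv0 : v ≠ 0 := by omega
  rw [Nat.add_sub_cancel, padicValNat.mul (by norm_num) hv0, padicValNat_self]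
  have h2 : padicValNat 2 v ≤ 1 := val_le_of_not_dvd 2 1 v (by omega)
  omega

end Pool.Agent.Results.MP_96deef_nt.Exists
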